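import Pool.Agent.H92.DZ.F7
import Pool.Agent.H61.GLH.Equiv

/-!
# Module A2 for `MP_52e316_nt`: few zeros of the derivatives (Jensen's formula in a large disc)
-/

set_option autoImplicit false

open Complex Metric

namespace Pool.Agent.H92.DZ

open Pool.Agent.H23.DZ

lemma diff_iteratedDeriv (b : ℝ) (k : ℕ) : ∀ (f : ℂ → ℂ)
    (_ : ∀ s : ℂ, s.re < b → DifferentiableAt ℂ f s) (s : ℂ), s.re < b →
      DifferentiableAt ℂ (iteratedDeriv k f) s := by
  induction k with
  | zero => intro f hf s hs; simpa using hf s hs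
  | succ k ih =>
    intro f hf s hs
    rw [iteratedDeriv_succ']
    exact ih (deriv f) (diff_deriv f b hf) s hs

/-- The twist by `q ^ (s - 1/2)`. -/
noncomputable def tw (q : ℝ) (s : ℂ) : ℂ := exp ((s - 1 / 2) * (Real.log q : ℂ))

lemma norm_tw {q : ℝ} (hq : 0 < q) (s : ℂ) : ‖tw q s‖ = q ^ (s.re - 1 / 2) := by
  rw [tw, norm_exp, Real.rpow_def_of_pos hq]
  congr 1
  rw [mul_re]
  simp
  ring

lemma diff_tw (q : ℝ) : Differentiable ℂ (tw q) := by
  unfold tw
  fun_prop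

lemma order_tw {F : ℂ → ℂ} {q : ℝ} {z : ℂ} (hF : AnalyticAt ℂ F z) :
    analyticOrderNatAt (fun s => F s * tw q s) z = analyticOrderNatAt F z := by
  have h1 : AnalyticAt ℂ (tw q) z := (diff_tw q).analyticAt z
  have h2 : analyticOrderAt (tw q) z = 0 := by
    rw [h1.analyticOrderAt_eq_zero]
    exact exp_ne_zero _
  have h3 : analyticOrderAt (F * tw q) z = analyticOrderAt F z := by
    rw [analyticOrderAt_mul hF h1, h2, add_zero]
  unfold analyticOrderNatAt
  congr 1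

theorem count (hD : DerivStmt) : CountStmt := by
  intro ι f Q X m hf b hb hL k A δ κ hδ hκ
  have hLk := (hD f Q X m hf k).1 b hb hL
  set K₀ : ℝ := |A| + |b| + δ + 1 / (2 * δ) + 1 with hK₀
  have hδ2 : 0 < 1 / (2 * δ) := by positivity
  have hA0 := abs_nonneg A
  have hb0 := abs_nonneg b
  have hA1 := le_abs_self A
  have hb1 := neg_abs_le b
  have hb2 := le_abs_self b
  have hK₀0 : 0 < K₀ := by positivity
  obtain ⟨K₁, c, hK01, hc, hlow⟩ := hf.low k K₀
  have hK₁0 : 0 < K₁ := by linarith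
  set c₃ : ℝ := δ / 4 / (K₁ + 1) with hc₃
  have hc₃0 : 0 < c₃ := by positivity
  set ε : ℝ := min (min (δ / 2) 1) (κ * c₃ / 2) with hε
  have hε0 : 0 < ε := by
    rw [hε]; refine lt_min (lt_min (by positivity) one_pos) (by positivity)
  have hε1 : ε ≤ δ / 2 := (min_le_left _ _).trans (min_le_left _ _)
  have hε2 : ε ≤ 1 := (min_le_left _ _).trans (min_le_right _ _)
  have hε3 : ε ≤ κ * c₃ / 2 := min_le_right _ _
  set A' : ℝ := 2 * K₁ + |b| with hA'
  obtain ⟨C, hC, hbd⟩ := hLk A' ε hε0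
  set D : ℝ := K₁ + 3 with hDdef
  have hD1 : 1 ≤ D := by linarith
  set C' : ℝ := C * D ^ m * (D ^ m) ^ (1 / 2 + A') with hC'
  have hC'0 : 0 < C' := by positivity
  set c' : ℝ := c * ((3 / 2 : ℝ) ^ m) ^ (-(1 / 2 + K₁)) with hc'
  have hc'0 : 0 < c' := by positivity
  set E : ℝ := |Real.log (C' / c')| with hE
  refine ⟨Real.exp (2 * E / (κ * c₃)), fun i t hX => ?_⟩
  intro Z hZ
  have hQt : 1 ≤ Q i t := hf.one_le_Q i t
  have hQ0 : 0 < Q i t := by linarith
  have hX1 : 1 ≤ X i t := hQt.trans (hf.Q_le_X i t)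
  have hX0 : 0 < X i t := by linarith
  obtain ⟨σ₀, hσ1, hσ2, hσ3⟩ := hlow i (t + 1 / 2)
  set F : ℂ → ℂ := iteratedDeriv k (f i) with hF
  set s₀ : ℂ := σ₀ + ((t + 1 / 2 : ℝ) : ℂ) * I with hs₀
  have hs₀re : s₀.re = σ₀ := by simp [hs₀]
  have hs₀im : s₀.im = t + 1 / 2 := by simp [hs₀]
  set R : ℝ := b - δ / 2 - σ₀ with hR
  set r : ℝ := b - 3 * δ / 4 - σ₀ with hr
  have hr0 : 0 < r := by rw [hr]; linarith
  have hrR : r = R - δ / 4 := by rw [hr, hR]; ring
  have hR0 : 0 < R := by linarith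
  have hR1 : R ≤ K₁ + 1 := by rw [hR]; linarith
  -- the half plane of holomorphy
  set U : Set ℂ := {s : ℂ | s.re < 3 / 4} with hU
  have hUo : IsOpen U := isOpen_lt continuous_re continuous_const
  have hUc : IsPreconnected U := (convex_halfSpace_re_lt _).isPreconnected
  have hFd : ∀ s ∈ U, DifferentiableAt ℂ F s := fun s hs =>
    diff_iteratedDeriv (3 / 4) k (f i) (hf.diff i) s hs
  set g : ℂ → ℂ := fun s => F s * tw (Q i t) s with hg
  have hgd : DifferentiableOn ℂ g U := fun s hs =>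
    ((hFd s hs).mul (diff_tw _ s)).differentiableWithinAt
  have hballU : closedBall s₀ R ⊆ U := by
    intro s hs
    rw [mem_closedBall, dist_eq_norm] at hs
    have h1 : (s - s₀).re ≤ ‖s - s₀‖ := re_le_norm _
    rw [sub_re, hs₀re] at h1
    have h2 : s.re < 3 / 4 := by linarith
    exact h2
  -- lower bound at the centre
  have hgs₀ : c' ≤ ‖g s₀‖ := by
    rw [hg]
    simp only
    rw [norm_mul, norm_tw hQ0, hs₀re]
    have h1 : Q i t ≤ (3 / 2 : ℝ) ^ m * Q i (t + 1 / 2) := by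
      have := hf.Q_le i (t + 1 / 2) t
      rw [show t - (t + 1 / 2) = -(1 / 2) by ring, abs_neg, abs_of_pos (by norm_num : (0:ℝ) < 1 / 2),
        show (1:ℝ) + 1 / 2 = 3 / 2 by norm_num] at this
      exact this
    have hQ' : 0 < Q i (t + 1 / 2) := by
      have := hf.one_le_Q i (t + 1 / 2); linarith
    have h2 : Q i t ^ (1 / 2 - σ₀) ≤ ((3 / 2 : ℝ) ^ m) ^ (1 / 2 + K₁) *
        Q i (t + 1 / 2) ^ (1 / 2 - σ₀) := by
      calc Q i t ^ (1 / 2 - σ₀) ≤ ((3 / 2 : ℝ) ^ m * Q i (t + 1 / 2)) ^ (1 / 2 - σ₀) :=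
            Real.rpow_le_rpow hQ0.le h1 (by linarith)
        _ = ((3 / 2 : ℝ) ^ m) ^ (1 / 2 - σ₀) * Q i (t + 1 / 2) ^ (1 / 2 - σ₀) :=
            Real.mul_rpow (by positivity) hQ'.le
        _ ≤ _ := by
            gcongr
            · exact one_le_pow₀ (by norm_num)
            · linarith
    have h3 : Q i t ^ (σ₀ - 1 / 2) = (Q i t ^ (1 / 2 - σ₀))⁻¹ := by
      rw [← Real.rpow_neg hQ0.le]; congr 1; ring
    rw [h3, ← div_eq_mul_inv, le_div_iff₀ (by positivity)]
    calc c' * Q i t ^ (1 / 2 - σ₀)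
        ≤ c' * (((3 / 2 : ℝ) ^ m) ^ (1 / 2 + K₁) * Q i (t + 1 / 2) ^ (1 / 2 - σ₀)) := by gcongr
      _ = c * Q i (t + 1 / 2) ^ (1 / 2 - σ₀) := by
          rw [hc', Real.rpow_neg (by positivity)]
          field_simp
      _ ≤ _ := hσ3
  have hgne : g s₀ ≠ 0 := by
    rw [← norm_pos_iff]; linarith
  -- upper bound on the sphere
  have hM : ∀ z ∈ sphere s₀ R, ‖g z‖ ≤ C' * X i t ^ ε := by
    intro z hz
    rw [mem_sphere, dist_eq_norm] at hz
    have h1 : |(z - s₀).re| ≤ R := by rw [← hz]; exact abs_re_le_norm _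
    have h2 : |(z - s₀).im| ≤ R := by rw [← hz]; exact abs_im_le_norm _
    rw [sub_re, hs₀re, abs_le] at h1
    rw [sub_im, hs₀im, abs_le] at h2
    have hzre1 : z.re ≤ b - δ / 2 := by linarith [h1.2]
    have hzre2 : -A' ≤ z.re := by
      have := h1.1
      rw [hA']
      linarith
    have hzim : 1 + |z.im - t| ≤ D := by
      have : |z.im - t| ≤ R + 1 / 2 := by
        rw [abs_le]; constructor <;> linarith [h2.1, h2.2]
      linarith
    have h3 := hbd i z hzre2 (by linarith)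
    have hXz : X i z.im ≤ D ^ m * X i t := (hf.X_le i t z.im).trans (by gcongr)
    have hQz : Q i z.im ≤ D ^ m * Q i t := (hf.Q_le i t z.im).trans (by gcongr)
    have hQz1 := hf.one_le_Q i z.im
    have hXz1 : 1 ≤ X i z.im := hQz1.trans (hf.Q_le_X i z.im)
    have hDm : 1 ≤ D ^ m := one_le_pow₀ hD1
    have h4 : X i z.im ^ ε ≤ D ^ m * X i t ^ ε := by
      calc X i z.im ^ ε ≤ (D ^ m * X i t) ^ ε := Real.rpow_le_rpow (by linarith) hXz hε0.le
        _ = (D ^ m) ^ ε * X i t ^ ε := Real.mul_rpow (by positivity) hX0.le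
        _ ≤ (D ^ m) ^ (1:ℝ) * X i t ^ ε := by gcongr
        _ = _ := by rw [Real.rpow_one]
    have h5 : Q i z.im ^ (1 / 2 - z.re) ≤ (D ^ m) ^ (1 / 2 + A') * Q i t ^ (1 / 2 - z.re) := by
      calc Q i z.im ^ (1 / 2 - z.re) ≤ (D ^ m * Q i t) ^ (1 / 2 - z.re) :=
            Real.rpow_le_rpow (by linarith) hQz (by linarith)
        _ = (D ^ m) ^ (1 / 2 - z.re) * Q i t ^ (1 / 2 - z.re) :=
            Real.mul_rpow (by positivity) hQ0.le
        _ ≤ _ := by gcongr; linarith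
    have h6 : Q i t ^ (1 / 2 - z.re) * Q i t ^ (z.re - 1 / 2) = 1 := by
      rw [← Real.rpow_add hQ0, show 1 / 2 - z.re + (z.re - 1 / 2) = 0 by ring, Real.rpow_zero]
    rw [hg]
    simp only
    rw [norm_mul, norm_tw hQ0]
    calc ‖F z‖ * Q i t ^ (z.re - 1 / 2)
        ≤ (C * (D ^ m * X i t ^ ε) * ((D ^ m) ^ (1 / 2 + A') * Q i t ^ (1 / 2 - z.re))) *
          Q i t ^ (z.re - 1 / 2) := by
          gcongr
          exact h3.trans (by gcongr)
      _ = C' * X i t ^ ε * (Q i t ^ (1 / 2 - z.re) * Q i t ^ (z.re - 1 / 2)) := by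
          rw [hC']; ring
      _ = _ := by rw [h6, mul_one]
  -- the points of the rectangle
  have hZ' : ∀ z ∈ Z, z ∈ U ∧ ‖z - s₀‖ ≤ r := by
    intro z hz
    obtain ⟨h1, h2, h3, h4⟩ := hZ z hz
    refine ⟨show z.re < 3 / 4 by linarith, ?_⟩
    rw [← abs_of_pos hr0, ← sq_le_sq₀ (norm_nonneg _) (abs_nonneg _), sq_abs,
      Complex.sq_norm, Complex.normSq_apply, sub_re, sub_im, hs₀re, hs₀im]
    have h5 : (z.re - σ₀) * (z.re - σ₀) ≤ (b - δ - σ₀) * (b - δ - σ₀) := by
      have : 0 ≤ z.re - σ₀ := by linarith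
      exact mul_self_le_mul_self this (by linarith)
    have h6 : (z.im - (t + 1 / 2)) * (z.im - (t + 1 / 2)) ≤ 1 / 4 := by nlinarith
    have h7 : 1 / (2 * δ) ≤ b - δ - σ₀ := by linarith
    have h8 : 1 / 4 ≤ δ / 2 * (b - δ - σ₀) := by
      calc (1:ℝ) / 4 = δ / 2 * (1 / (2 * δ)) := by field_simp; norm_num
        _ ≤ _ := by gcongr
    have h9 : r ^ 2 = (b - δ - σ₀) * (b - δ - σ₀) + δ / 2 * (b - δ - σ₀) + δ ^ 2 / 16 := by
      rw [hr]; ring
    have h10 : 0 ≤ δ ^ 2 / 16 := by positivity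
    linarith
  have hJ := Pool.Agent.H61.GLH.jensen_count hUo hUc hgd hr0 hR0 hballU hgne hM Z hZ'
  have hord : ∑ z ∈ Z, analyticOrderNatAt g z = ∑ z ∈ Z, analyticOrderNatAt F z := by
    refine Finset.sum_congr rfl fun z hz => ?_
    refine order_tw ?_
    have hd : DifferentiableOn ℂ F U := fun s hs => (hFd s hs).differentiableWithinAt
    exact hd.analyticAt (hUo.mem_nhds (hZ' z hz).1)
  rw [hord] at hJ
  set n : ℕ := ∑ z ∈ Z, analyticOrderNatAt F z with hn
  -- conclusion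
  clear_value c' C'
  have h1 : c' * R ^ n ≤ C' * X i t ^ ε * r ^ n :=
    (mul_le_mul_of_nonneg_right hgs₀ (by positivity)).trans hJ
  have h2 : Real.log c' + n * Real.log R ≤ Real.log C' + ε * Real.log (X i t) + n * Real.log r := by
    have h0 := Real.log_le_log (by positivity) h1
    have e1 : Real.log (c' * R ^ n) = Real.log c' + n * Real.log R := by
      rw [Real.log_mul hc'0.ne' (by positivity : R ^ n ≠ 0), Real.log_pow]
    have e2 : Real.log (C' * X i t ^ ε * r ^ n) =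
        Real.log C' + ε * Real.log (X i t) + n * Real.log r := by
      have a1 : C' * X i t ^ ε ≠ 0 := by positivity
      have a2 : r ^ n ≠ 0 := by positivity
      have a3 : X i t ^ ε ≠ 0 := by positivity
      rw [Real.log_mul a1 a2, Real.log_mul hC'0.ne' a3, Real.log_pow, Real.log_rpow hX0]
    rw [e1, e2] at h0
    exact h0
  have h3 : c₃ ≤ Real.log R - Real.log r := by
    rw [← Real.log_div hR0.ne' hr0.ne']
    have h4 := Real.one_sub_inv_le_log_of_pos (show 0 < R / r by positivity)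
    refine le_trans ?_ h4
    rw [inv_div]
    have e : 1 - r / R = δ / 4 / R := by rw [hrR]; field_simp; ring
    rw [e, hc₃]
    gcongr
  have h4 : (n : ℝ) * c₃ ≤ E + ε * Real.log (X i t) := by
    have h5 : (n : ℝ) * c₃ ≤ n * (Real.log R - Real.log r) := by gcongr
    have h6 : Real.log C' - Real.log c' ≤ E := by
      rw [hE, Real.log_div hC'0.ne' hc'0.ne']; exact le_abs_self _
    nlinarith [h5, h6, h2]
  have hlogX : 2 * E / (κ * c₃) ≤ Real.log (X i t) := by
    rw [Real.le_log_iff_exp_le hX0]; exact hX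
  have hlog0 : 0 ≤ Real.log (X i t) := Real.log_nonneg hX1
  have h5 : E ≤ κ * c₃ / 2 * Real.log (X i t) := by
    rw [div_le_iff₀ (by positivity)] at hlogX
    linarith
  have h6 : ε * Real.log (X i t) ≤ κ * c₃ / 2 * Real.log (X i t) := by gcongr
  have h7 : (n : ℝ) * c₃ ≤ (κ * Real.log (X i t)) * c₃ := by linarith
  exact le_of_mul_le_mul_right h7 hc₃0

end Pool.Agent.H92.DZ
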