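import Pool.Agent.H23.DZ.Targets

/-!
# Module F7 for `MP_52e316_nt`: lower bound for derivatives far to the left
-/

set_option autoImplicit false

open Complex

namespace Pool.Agent.H92.DZ

open Pool.Agent.H23.DZ Pool.Agent.H23.GLM Pool.Agent.H23.GLH

/-- Iterated forward difference with step `2`. -/
noncomputable def fd (f : ℂ → ℂ) : ℕ → ℂ → ℂ
  | 0 => f
  | k + 1 => fun s => fd f k (s + 2) - fd f k s

lemma fd_zero (f : ℂ → ℂ) : fd f 0 = f := rfl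

lemma fd_succ (f : ℂ → ℂ) (k : ℕ) (s : ℂ) : fd f (k + 1) s = fd f k (s + 2) - fd f k s := rfl

lemma fd_hasDerivAt (f : ℂ → ℂ) (b : ℝ) (hf : ∀ s : ℂ, s.re < b → DifferentiableAt ℂ f s) :
    ∀ (k : ℕ) (s : ℂ), s.re + 2 * k < b → HasDerivAt (fd f k) (fd (deriv f) k s) s := by
  intro k
  induction k with
  | zero =>
    intro s hs
    simp only [fd_zero]
    exact (hf s (by simpa using hs)).hasDerivAt
  | succ k ih =>
    intro s hs
    push_cast at hs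
    have h1 := ih (s + 2) (by simp; linarith)
    have h2 := ih s (by linarith)
    have h3 : HasDerivAt (fun s => fd f k (s + 2)) (fd (deriv f) k (s + 2)) s :=
      HasDerivAt.comp_add_const s 2 h1
    exact h3.sub h2

lemma diff_deriv (f : ℂ → ℂ) (b : ℝ) (hf : ∀ s : ℂ, s.re < b → DifferentiableAt ℂ f s) :
    ∀ s : ℂ, s.re < b → DifferentiableAt ℂ (deriv f) s := by
  have hopen : IsOpen {s : ℂ | s.re < b} := isOpen_lt continuous_re continuous_const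
  have hd : DifferentiableOn ℂ f {s : ℂ | s.re < b} := fun s hs =>
    (hf s hs).differentiableWithinAt
  intro s hs
  exact (hd.deriv hopen).differentiableAt (hopen.mem_nhds hs)

lemma seg_re (a : ℂ) {u v : ℝ} (huv : u + v = 1) :
    (u • a + v • (a + 2)).re = a.re + 2 * v := by
  have : u = 1 - v := by linarith
  rw [Complex.add_re, Complex.smul_re, Complex.smul_re, Complex.add_re, this]
  simp only [smul_eq_mul, re_ofNat]
  ring

lemma seg_im (a : ℂ) {u v : ℝ} (huv : u + v = 1) :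
    (u • a + v • (a + 2)).im = a.im := by
  have : u = 1 - v := by linarith
  rw [Complex.add_im, Complex.smul_im, Complex.smul_im, Complex.add_im, this]
  simp only [smul_eq_mul, im_ofNat]
  ring

lemma fd_bound : ∀ (k : ℕ) (f : ℂ → ℂ) (b : ℝ) (_ : ∀ s : ℂ, s.re < b → DifferentiableAt ℂ f s)
    (a : ℂ) (M : ℝ), a.re + 2 * k < b →
    (∀ σ : ℝ, a.re ≤ σ → σ ≤ a.re + 2 * k → ‖iteratedDeriv k f (σ + a.im * I)‖ ≤ M) →
    ‖fd f k a‖ ≤ 2 ^ k * M := by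
  intro k
  induction k with
  | zero =>
    intro f b _ a M _ h
    have := h a.re le_rfl (by simp)
    simp only [iteratedDeriv_zero, re_add_im] at this
    simpa [fd_zero] using this
  | succ k ih =>
    intro f b hf a M hb h
    push_cast at hb h
    -- bound for the derivative of `fd f k` on the segment
    have hM : ∀ z ∈ segment ℝ a (a + 2), ‖fd (deriv f) k z‖ ≤ 2 ^ k * M := by
      intro z hz
      obtain ⟨u, v, hu, hv, huv, rfl⟩ := hz
      have hre := seg_re a huv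
      have him := seg_im a huv
      have hv1 : v ≤ 1 := by linarith
      refine ih (deriv f) b (diff_deriv f b hf) _ M (by rw [hre]; linarith) ?_
      intro σ h1 h2
      rw [him, ← iteratedDeriv_succ']
      rw [hre] at h1 h2
      exact h σ (by linarith) (by linarith)
    have hder : ∀ z ∈ segment ℝ a (a + 2), HasDerivWithinAt (fd f k) (fd (deriv f) k z)
        (segment ℝ a (a + 2)) z := by
      intro z hz
      obtain ⟨u, v, hu, hv, huv, rfl⟩ := hz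
      have hre := seg_re a huv
      have hv1 : v ≤ 1 := by linarith
      exact (fd_hasDerivAt f b hf k _ (by rw [hre]; linarith)).hasDerivWithinAt
    have h3 := (convex_segment a (a + 2)).norm_image_sub_le_of_norm_hasDerivWithin_le hder hM
      (left_mem_segment ℝ a (a + 2)) (right_mem_segment ℝ a (a + 2))
    rw [fd_succ]
    refine h3.trans (le_of_eq ?_)
    have : ‖a + 2 - a‖ = 2 := by simp
    rw [this]; ring

lemma fd_norm_le (f : ℂ → ℂ) (k : ℕ) : ∀ (s : ℂ) (M : ℝ), (∀ j : ℕ, j ≤ k → ‖f (s + 2 * j)‖ ≤ M) →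
    ‖fd f k s‖ ≤ 2 ^ k * M := by
  induction k with
  | zero =>
    intro s M h
    have := h 0 le_rfl
    simpa [fd_zero] using this
  | succ k ih =>
    intro s M h
    rw [fd_succ]
    have h1 := ih (s + 2) M fun j hj => by
      have := h (j + 1) (by omega)
      push_cast at this
      rwa [show s + 2 + 2 * (j : ℂ) = s + 2 * ((j : ℂ) + 1) by ring]
    have h2 := ih s M fun j hj => h j (by omega)
    refine (norm_sub_le _ _).trans ?_
    rw [pow_succ]; linarith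

lemma fd_main (f : ℂ → ℂ) (k : ℕ) : ∀ (s : ℂ) (M : ℝ),
    (∀ j : ℕ, 1 ≤ j → j ≤ k → ‖f (s + 2 * j)‖ ≤ M) →
    ‖fd f k s - (-1) ^ k * f s‖ ≤ (2 ^ k - 1) * M := by
  induction k with
  | zero =>
    intro s M h
    simp [fd_zero]
  | succ k ih =>
    intro s M h
    rw [fd_succ]
    have h1 := fd_norm_le f k (s + 2) M fun j hj => by
      have := h (j + 1) (by omega) (by omega)
      push_cast at this
      rwa [show s + 2 + 2 * (j : ℂ) = s + 2 * ((j : ℂ) + 1) by ring]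
    have h2 := ih s M fun j hj hj' => h j hj (by omega)
    have e : fd f k (s + 2) - fd f k s - (-1) ^ (k + 1) * f s =
        fd f k (s + 2) - (fd f k s - (-1) ^ k * f s) := by ring
    rw [e]
    refine (norm_sub_le _ _).trans ?_
    rw [pow_succ]; linarith

/-- If `f` is much smaller at `a + 2j`, `1 ≤ j ≤ k`, then the `k`-th derivative is not small
somewhere on `[a, a + 2k]`. -/
lemma exists_deriv_large (f : ℂ → ℂ) (b : ℝ) (hf : ∀ s : ℂ, s.re < b → DifferentiableAt ℂ f s)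
    (k : ℕ) (a : ℂ) (hab : a.re + 2 * k < b) (ha : f a ≠ 0) (θ : ℝ) (hθ : 2 ^ k * θ ≤ 1 / 2)
    (hθ0 : 0 ≤ θ)
    (h : ∀ j : ℕ, 1 ≤ j → j ≤ k → ‖f (a + 2 * j)‖ ≤ θ * ‖f a‖) :
    ∃ σ : ℝ, a.re ≤ σ ∧ σ ≤ a.re + 2 * k ∧
      ‖f a‖ / 2 ^ (k + 2) ≤ ‖iteratedDeriv k f (σ + a.im * I)‖ := by
  by_contra hcon
  push Not at hcon
  have hpos : 0 < ‖f a‖ := norm_pos_iff.mpr ha
  have h1 := fd_bound k f b hf a (‖f a‖ / 2 ^ (k + 2)) hab fun σ h1 h2 => (hcon σ h1 h2).le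
  have h2 := fd_main f k a (θ * ‖f a‖) h
  have h3 : ‖f a‖ ≤ ‖fd f k a‖ + ‖fd f k a - (-1) ^ k * f a‖ := by
    have : ‖(-1) ^ k * f a‖ = ‖f a‖ := by simp
    rw [← this]
    have e : (-1) ^ k * f a = fd f k a - (fd f k a - (-1) ^ k * f a) := by ring
    calc ‖(-1) ^ k * f a‖ = ‖fd f k a - (fd f k a - (-1) ^ k * f a)‖ := by rw [← e]
      _ ≤ _ := norm_sub_le _ _
  have h4 : 2 ^ k * (‖f a‖ / 2 ^ (k + 2)) = ‖f a‖ / 4 := by
    rw [pow_add]
    field_simp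
    norm_num
  rw [h4] at h1
  have h5 : (2 ^ k - 1) * (θ * ‖f a‖) ≤ 1 / 2 * ‖f a‖ := by
    have : (2 ^ k - 1) * (θ * ‖f a‖) ≤ 2 ^ k * θ * ‖f a‖ := by
      nlinarith [mul_nonneg hθ0 hpos.le]
    exact this.trans (mul_le_mul_of_nonneg_right hθ hpos.le)
  linarith

/-- Pigeonhole: a point `x ∈ [K, K + 2]` away from all `ρ j + 2n`. -/
lemma exists_x {m : ℕ} (ρ : Fin m → ℝ) (K : ℝ) : ∃ x : ℝ, K ≤ x ∧ x ≤ K + 2 ∧
    ∀ (j : Fin m) (n : ℕ), 1 / (4 * ((m : ℝ) + 1)) ≤ |ρ j - x + 2 * n| := by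
  by_contra hcon
  push Not at hcon
  have hm : (0 : ℝ) < (m : ℝ) + 1 := by positivity
  have h1 : ∀ i : Fin (m + 1), ∃ j : Fin m, ∃ n : ℕ,
      |ρ j - (K + 2 * (i : ℕ) / ((m : ℝ) + 1)) + 2 * n| < 1 / (4 * ((m : ℝ) + 1)) := by
    intro i
    refine hcon (K + 2 * (i : ℕ) / ((m : ℝ) + 1)) ?_ ?_
    · have : 0 ≤ 2 * ((i : ℕ) : ℝ) / ((m : ℝ) + 1) := by positivity
      linarith
    · have h2 : (((i : ℕ) : ℝ)) ≤ (m : ℝ) + 1 := by
        have := i.2
        have : ((i : ℕ) : ℝ) < ((m + 1 : ℕ) : ℝ) := by exact_mod_cast this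
        push_cast at this; linarith
      have : 2 * ((i : ℕ) : ℝ) / ((m : ℝ) + 1) ≤ 2 := by
        rw [div_le_iff₀ hm]; linarith
      linarith
  choose J hJ using h1
  choose n hn using hJ
  obtain ⟨i, i', hne, heq⟩ := Fintype.exists_ne_map_eq_of_card_lt J (by simp)
  have a1 := hn i
  have a2 := hn i'
  rw [heq] at a1
  have h3 : |(((i : ℕ) : ℝ) - ((i' : ℕ) : ℝ)) - ((n i : ℝ) - (n i' : ℝ)) * ((m : ℝ) + 1)| < 1 := by
    have h4 := abs_lt.mp a1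
    have h5 := abs_lt.mp a2
    have e : (((i : ℕ) : ℝ) - ((i' : ℕ) : ℝ)) - ((n i : ℝ) - (n i' : ℝ)) * ((m : ℝ) + 1) =
        ((m : ℝ) + 1) / 2 * ((ρ (J i') - (K + 2 * (i' : ℕ) / ((m : ℝ) + 1)) + 2 * n i') -
          (ρ (J i') - (K + 2 * (i : ℕ) / ((m : ℝ) + 1)) + 2 * n i)) := by
      field_simp
      ring
    rw [e, abs_mul, abs_of_pos (by positivity)]
    have h6 : |(ρ (J i') - (K + 2 * (i' : ℕ) / ((m : ℝ) + 1)) + 2 * n i') -
          (ρ (J i') - (K + 2 * (i : ℕ) / ((m : ℝ) + 1)) + 2 * n i)| ≤ 2 * (1 / (4 * ((m : ℝ) + 1))) := by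
      rw [abs_le]
      constructor <;> linarith [h4.1, h4.2, h5.1, h5.2]
    calc ((m : ℝ) + 1) / 2 * |(ρ (J i') - (K + 2 * (i' : ℕ) / ((m : ℝ) + 1)) + 2 * n i') -
          (ρ (J i') - (K + 2 * (i : ℕ) / ((m : ℝ) + 1)) + 2 * n i)|
        ≤ ((m : ℝ) + 1) / 2 * (2 * (1 / (4 * ((m : ℝ) + 1)))) := by gcongr
      _ = 1 / 4 := by field_simp
      _ < 1 := by norm_num
  have h4 : |(((i : ℕ) : ℤ) - ((i' : ℕ) : ℤ)) - ((n i : ℤ) - (n i' : ℤ)) * ((m : ℤ) + 1)| < 1 := by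
    exact_mod_cast h3
  rw [Int.abs_lt_one_iff] at h4
  have h5 : ((m : ℤ) + 1) ∣ (((i : ℕ) : ℤ) - ((i' : ℕ) : ℤ)) :=
    ⟨(n i : ℤ) - (n i' : ℤ), by linarith⟩
  have h6 : |((i : ℕ) : ℤ) - ((i' : ℕ) : ℤ)| < (m : ℤ) + 1 := by
    rw [abs_lt]
    have := i.2
    have := i'.2
    constructor <;> omega
  have h7 := Int.eq_zero_of_abs_lt_dvd h5 h6
  apply hne
  ext
  omega

lemma ratio_step_iter (h3 : RatioStepStmt) {z : ℂ} {x B η : ℝ} (hz : 0 ≤ z.re) (hB : 0 < B)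
    (hη : 0 < η) (hn : ∀ n : ℕ, η ≤ |z.re - x + 2 * n|) :
    ∀ j : ℕ, B ≤ x - 2 * j →
      ‖ratio z (x - 2 * j)‖ * (B * η / (4 * Real.pi ^ 2)) ^ j ≤ ‖ratio z x‖ := by
  intro j
  induction j with
  | zero => intro _; simp
  | succ j ih =>
    intro hj
    push_cast at hj
    have h1 := ih (by linarith)
    have hne : z - ((x - 2 * j : ℝ) : ℂ) ≠ 0 := by
      intro h0
      have : (z - ((x - 2 * j : ℝ) : ℂ)).re = 0 := by rw [h0]; simp
      rw [sub_re, ofReal_re] at this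
      have h4 := hn j
      rw [show z.re - x + 2 * (j : ℝ) = z.re - (x - 2 * j) by ring, this, abs_zero] at h4
      linarith
    have h5 := h3 (x - 2 * j) z (by linarith) hz hne
    have h6 : ‖z + ((x - 2 * j : ℝ) : ℂ) - 2‖ ≥ B := by
      have : (z + ((x - 2 * j : ℝ) : ℂ) - 2).re ≤ ‖z + ((x - 2 * j : ℝ) : ℂ) - 2‖ := re_le_norm _
      have e : (z + ((x - 2 * j : ℝ) : ℂ) - 2).re = z.re + (x - 2 * j) - 2 := by
        rw [sub_re, add_re, ofReal_re]; simp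
      linarith
    have h7 : η ≤ ‖z - ((x - 2 * j : ℝ) : ℂ)‖ := by
      have : |(z - ((x - 2 * j : ℝ) : ℂ)).re| ≤ ‖z - ((x - 2 * j : ℝ) : ℂ)‖ := abs_re_le_norm _
      rw [sub_re, ofReal_re] at this
      have h4 := hn j
      rw [show z.re - x + 2 * (j : ℝ) = z.re - (x - 2 * j) by ring] at h4
      linarith
    have h8 : ‖ratio z (x - 2 * ((j + 1 : ℕ) : ℝ))‖ * (B * η / (4 * Real.pi ^ 2)) ≤
        ‖ratio z (x - 2 * j)‖ := by
      rw [h5, norm_mul, norm_div, norm_mul]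
      have e : x - 2 * ((j + 1 : ℕ) : ℝ) = x - 2 * j - 2 := by push_cast; ring
      have e2 : ‖(4 : ℂ) * (Real.pi : ℂ) ^ 2‖ = 4 * Real.pi ^ 2 := by
        rw [norm_mul, norm_pow, Complex.norm_real, Real.norm_eq_abs, abs_of_pos Real.pi_pos]
        simp
      rw [e, e2]
      gcongr
    calc ‖ratio z (x - 2 * ((j + 1 : ℕ) : ℝ))‖ * (B * η / (4 * Real.pi ^ 2)) ^ (j + 1)
        = (‖ratio z (x - 2 * ((j + 1 : ℕ) : ℝ))‖ * (B * η / (4 * Real.pi ^ 2))) *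
          (B * η / (4 * Real.pi ^ 2)) ^ j := by rw [pow_succ]; ring
      _ ≤ ‖ratio z (x - 2 * j)‖ * (B * η / (4 * Real.pi ^ 2)) ^ j := by gcongr
      _ ≤ _ := h1

lemma LData.diffAt {m : ℕ} (π : LData m) (s : ℂ) (hs : s.re < 3 / 4) :
    DifferentiableAt ℂ π.L s := by
  rcases π.regular with h | h
  · exact h.1 s
  · rw [h.2.2.2]
    refine differentiableAt_riemannZeta ?_
    rintro rfl
    norm_num at hs

theorem low (h2 : RatioLowerStmt) (h3 : RatioStepStmt) (hF : NormFEStmt) : LowStmt := by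
  intro m S hm hS k K₀
  obtain ⟨σ₁, c₀, hc₀, hfar⟩ := hS
  set η : ℝ := 1 / (4 * ((m : ℝ) + 1)) with hη
  have hη0 : 0 < η := by positivity
  -- the size of the steps
  set Λ : ℝ := max 1 (2 ^ (k + 1) / c₀ ^ 2) with hΛ
  have hΛ1 : 1 ≤ Λ := le_max_left _ _
  have hΛ2 : 2 ^ (k + 1) / c₀ ^ 2 ≤ Λ := le_max_right _ _
  set B : ℝ := Λ * (4 * Real.pi ^ 2) / η with hB
  have hπ := Real.pi_pos
  have hB0 : 0 < B := by positivity
  have hBη : B * η / (4 * Real.pi ^ 2) = Λ := by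
    rw [hB]; field_simp
  set K₂ : ℝ := |K₀| + |σ₁| + B + 2 * k + 1 with hK₂
  have hK₂0 : 0 < K₂ := by positivity
  obtain ⟨c₁, hc₁, hrl⟩ := h2 (K₂ + 2) η hη0
  refine ⟨K₂ + 2, c₀ * (c₁ * 2⁻¹ ^ (K₂ + 2)) ^ m / 2 ^ (k + 2), ?_, by positivity, ?_⟩
  · have := le_abs_self K₀
    have := abs_nonneg σ₁
    have : (0:ℝ) ≤ k := by positivity
    linarith
  rintro ⟨π, hπS⟩ t
  simp only
  obtain ⟨x, hx1, hx2, hx3⟩ := exists_x (fun j => (1 / 2 + t * I - π.μ j : ℂ).re) K₂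
  have hxpos : 0 < x := by linarith
  have hk0 : (0:ℝ) ≤ k := by positivity
  have habs1 := le_abs_self K₀
  have habs2 := le_abs_self σ₁
  have habs3 := abs_nonneg K₀
  have habs4 := abs_nonneg σ₁
  have hxk : ∀ j : ℕ, j ≤ k → |K₀| + |σ₁| + B + 1 ≤ x - 2 * j := by
    intro j hj
    have : (j:ℝ) ≤ k := by exact_mod_cast hj
    linarith
  set z : Fin m → ℂ := fun j => 1 / 2 + t * I - π.μ j with hz
  have hzre : ∀ j, 0 ≤ (z j).re := by
    intro j
    have := π.re_μ_lt j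
    simp [hz]
    linarith
  have hN := π.one_le_N
  set a : ℂ := 1 / 2 - x + t * I with ha
  have hare : a.re = 1 / 2 - x := by simp [ha]
  have haim : a.im = t := by simp [ha]
  have hLa : ‖π.L a‖ = (π.N : ℝ) ^ x * (∏ j, ‖ratio (z j) x‖) * ‖π.L (1 / 2 + x + t * I)‖ :=
    hF m π x t hxpos (Or.inl (by
      have := hxk 0 (Nat.zero_le _)
      simp at this
      intro h
      linarith))
  have hfar1 : c₀ ≤ ‖π.L (1 / 2 + x + t * I)‖ := by
    refine (hfar π hπS _ ?_).1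
    have := hxk 0 (Nat.zero_le _)
    simp at this ⊢
    linarith
  have hP0 : 0 ≤ ∏ j, ‖ratio (z j) x‖ := Finset.prod_nonneg fun j _ => norm_nonneg _
  have hNx : 0 < (π.N : ℝ) ^ x := by positivity
  -- lower bound for `L a`
  have hlow : c₀ * (c₁ * 2⁻¹ ^ (K₂ + 2)) ^ m * π.Q t ^ x ≤ ‖π.L a‖ := by
    rw [hLa]
    have e1 : π.Q t ^ x = (π.N : ℝ) ^ x * ∏ j, (1 + ‖t * I - π.μ j‖) ^ x := by
      rw [LData.Q, Real.mul_rpow (by positivity) (Finset.prod_nonneg fun j _ => by positivity),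
        Real.finsetProd_rpow _ _ fun j _ => by positivity]
    have e2 : ∏ j, (c₁ * 2⁻¹ ^ (K₂ + 2) * (1 + ‖t * I - π.μ j‖) ^ x) ≤ ∏ j, ‖ratio (z j) x‖ := by
      refine Finset.prod_le_prod (fun j _ => by positivity) fun j _ => ?_
      have h4 := hrl x (z j) hxpos (by linarith) (hzre j) (fun n => hx3 j n)
      refine le_trans ?_ h4
      have h5 : 2⁻¹ * (1 + ‖t * I - π.μ j‖) ≤ 1 + ‖z j‖ := by
        have : ‖t * I - π.μ j‖ ≤ ‖z j‖ + 1 / 2 := by
          have e : t * I - π.μ j = z j - 1 / 2 := by rw [hz]; ring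
          rw [e]
          refine (norm_sub_le _ _).trans ?_
          norm_num
        linarith [norm_nonneg (z j)]
      have h6 : (2⁻¹ : ℝ) ^ (K₂ + 2) * (1 + ‖t * I - π.μ j‖) ^ x ≤ (1 + ‖z j‖) ^ x := by
        calc (2⁻¹ : ℝ) ^ (K₂ + 2) * (1 + ‖t * I - π.μ j‖) ^ x
            ≤ 2⁻¹ ^ x * (1 + ‖t * I - π.μ j‖) ^ x := by
              gcongr ?_ * _
              exact Real.rpow_le_rpow_of_exponent_ge (by norm_num) (by norm_num) (by linarith)
          _ = (2⁻¹ * (1 + ‖t * I - π.μ j‖)) ^ x := by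
              rw [Real.mul_rpow (by norm_num) (by positivity)]
          _ ≤ _ := Real.rpow_le_rpow (by positivity) h5 hxpos.le
      calc c₁ * 2⁻¹ ^ (K₂ + 2) * (1 + ‖t * I - π.μ j‖) ^ x
          = c₁ * (2⁻¹ ^ (K₂ + 2) * (1 + ‖t * I - π.μ j‖) ^ x) := by ring
        _ ≤ _ := by gcongr
    rw [Finset.prod_mul_distrib, Finset.prod_const, Finset.card_univ, Fintype.card_fin] at e2
    rw [e1]
    calc c₀ * (c₁ * 2⁻¹ ^ (K₂ + 2)) ^ m * ((π.N : ℝ) ^ x * ∏ j, (1 + ‖t * I - π.μ j‖) ^ x)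
        = (π.N : ℝ) ^ x * ((c₁ * 2⁻¹ ^ (K₂ + 2)) ^ m * ∏ j, (1 + ‖t * I - π.μ j‖) ^ x) * c₀ := by
          ring
      _ ≤ _ := by gcongr
  have hQ1 : 1 ≤ π.Q t := by
    refine one_le_mul_of_one_le_of_one_le hN ?_
    calc (1:ℝ) = ∏ _j : Fin m, (1:ℝ) := by simp
      _ ≤ _ := Finset.prod_le_prod (fun _ _ => zero_le_one) fun j _ => by
          linarith [norm_nonneg (t * I - π.μ j)]
  have hQ0 : 0 < π.Q t := by linarith
  have hane : π.L a ≠ 0 := by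
    rw [← norm_pos_iff]
    refine lt_of_lt_of_le ?_ hlow
    positivity
  -- the shifted values are small
  have hsmall : ∀ j : ℕ, 1 ≤ j → j ≤ k → ‖π.L (a + 2 * j)‖ ≤ 1 / (Λ * c₀ ^ 2) * ‖π.L a‖ := by
    intro j hj1 hjk
    have hxj := hxk j hjk
    have ea : a + 2 * j = 1 / 2 - ((x - 2 * j : ℝ) : ℂ) + t * I := by
      rw [ha]; push_cast; ring
    have hLj := hF m π (x - 2 * j) t (by linarith) (Or.inl (by intro h; linarith))
    rw [ea, hLj]
    have h4 : ‖π.L (1 / 2 + ((x - 2 * j : ℝ) : ℂ) + t * I)‖ ≤ c₀⁻¹ := by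
      refine (hfar π hπS _ ?_).2
      simp at hxj ⊢
      linarith
    have h5 : (∏ i, ‖ratio (z i) (x - 2 * j)‖) * Λ ≤ ∏ i, ‖ratio (z i) x‖ := by
      have h6 : ∀ i, ‖ratio (z i) (x - 2 * j)‖ * Λ ≤ ‖ratio (z i) x‖ := by
        intro i
        have h7 := ratio_step_iter h3 (hzre i) hB0 hη0 (fun n => hx3 i n) j (by linarith)
        rw [hBη] at h7
        refine le_trans ?_ h7
        gcongr
        exact le_self_pow₀ hΛ1 (by omega)
      calc (∏ i, ‖ratio (z i) (x - 2 * j)‖) * Λ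
          ≤ (∏ i, ‖ratio (z i) (x - 2 * j)‖) * Λ ^ m := by
            gcongr
            exact le_self_pow₀ hΛ1 (by omega)
        _ = ∏ i, (‖ratio (z i) (x - 2 * j)‖ * Λ) := by
            rw [Finset.prod_mul_distrib, Finset.prod_const, Finset.card_univ, Fintype.card_fin]
        _ ≤ _ := Finset.prod_le_prod (fun i _ => by positivity) fun i _ => h6 i
    have h6 : (π.N : ℝ) ^ (x - 2 * j) ≤ (π.N : ℝ) ^ x :=
      Real.rpow_le_rpow_of_exponent_le hN (by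
        have : (0:ℝ) ≤ j := by positivity
        linarith)
    have hΛ0 : 0 < Λ := by linarith
    have h7 : ∏ i, ‖ratio (z i) (x - 2 * j)‖ ≤ (∏ i, ‖ratio (z i) x‖) / Λ := by
      rw [le_div_iff₀ hΛ0]; exact h5
    have hP1 : 0 ≤ ∏ i, ‖ratio (z i) (x - 2 * j)‖ := Finset.prod_nonneg fun j _ => norm_nonneg _
    calc (π.N : ℝ) ^ (x - 2 * j) * (∏ i, ‖ratio (1 / 2 + t * I - π.μ i) (x - 2 * j)‖) *
          ‖π.L (1 / 2 + ((x - 2 * j : ℝ) : ℂ) + t * I)‖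
        ≤ (π.N : ℝ) ^ x * ((∏ i, ‖ratio (z i) x‖) / Λ) * c₀⁻¹ := by
          gcongr
      _ = 1 / (Λ * c₀ ^ 2) * ((π.N : ℝ) ^ x * (∏ i, ‖ratio (z i) x‖) * c₀) := by
          field_simp
      _ ≤ 1 / (Λ * c₀ ^ 2) * ‖π.L a‖ := by
          rw [hLa]
          gcongr
  have hθ : (2:ℝ) ^ k * (1 / (Λ * c₀ ^ 2)) ≤ 1 / 2 := by
    have h4 : 2 ^ (k + 1) ≤ Λ * c₀ ^ 2 := by
      rw [div_le_iff₀ (by positivity)] at hΛ2
      exact hΛ2
    rw [mul_one_div, div_le_iff₀ (by positivity)]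
    rw [pow_succ] at h4
    linarith
  have hxk' := hxk k le_rfl
  obtain ⟨σ, hσ1, hσ2, hσ3⟩ := exists_deriv_large π.L (3 / 4) (LData.diffAt π) k a
    (by rw [hare]; linarith) hane (1 / (Λ * c₀ ^ 2)) hθ (by positivity) hsmall
  rw [hare] at hσ1 hσ2
  rw [haim] at hσ3
  refine ⟨σ, by linarith, by linarith, ?_⟩
  refine le_trans ?_ hσ3
  have h5 : π.Q t ^ (1 / 2 - σ) ≤ π.Q t ^ x :=
    Real.rpow_le_rpow_of_exponent_le hQ1 (by linarith)
  calc c₀ * (c₁ * 2⁻¹ ^ (K₂ + 2)) ^ m / 2 ^ (k + 2) * π.Q t ^ (1 / 2 - σ)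
      ≤ c₀ * (c₁ * 2⁻¹ ^ (K₂ + 2)) ^ m / 2 ^ (k + 2) * π.Q t ^ x := by gcongr
    _ = c₀ * (c₁ * 2⁻¹ ^ (K₂ + 2)) ^ m * π.Q t ^ x / 2 ^ (k + 2) := by ring
    _ ≤ _ := by gcongr

end Pool.Agent.H92.DZ
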